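import Pool.Agent.Work.MP_8b8979_an.Phase

/-!
# Phase sequences adapted to a polynomial
-/

open MeasureTheory Filter Topology Set

namespace Pool.Agent.Work.MP_8b8979_an

/-- The iterated binary logarithm. -/
def ll (n : ℕ) : ℕ := Nat.log 2 (Nat.log 2 n)

lemma ll_mono : Monotone ll := fun _ _ h => Nat.log_mono_right (Nat.log_mono_right h)

lemma ll_eq {j n : ℕ} (h1 : 2 ^ 2 ^ j ≤ n) (h2 : n < 2 ^ 2 ^ (j + 1)) : ll n = j := by
  unfold ll
  have hn : n ≠ 0 := by
    have : 0 < 2 ^ 2 ^ j := by positivity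
    omega
  have h3 : 2 ^ j ≤ Nat.log 2 n := Nat.le_log_of_pow_le (by norm_num) h1
  have h4 : Nat.log 2 n < 2 ^ (j + 1) := Nat.log_lt_of_lt_pow hn h2
  apply le_antisymm
  · have := Nat.log_lt_of_lt_pow (b := 2) (by have : 0 < 2 ^ j := by positivity
                                              omega) h4
    omega
  · exact Nat.le_log_of_pow_le (by norm_num) h3

lemma log_jump {n : ℕ} (hn : 1 ≤ n) (h : Nat.log 2 (n + 1) ≠ Nat.log 2 n) :
    n + 1 = 2 ^ Nat.log 2 (n + 1) := by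
  have h1 : Nat.log 2 n ≤ Nat.log 2 (n + 1) := Nat.log_mono_right (by omega)
  have h2 : Nat.log 2 n < Nat.log 2 (n + 1) := by omega
  have h3 : n < 2 ^ Nat.log 2 (n + 1) := Nat.lt_pow_of_log_lt (by norm_num) h2
  have h4 : 2 ^ Nat.log 2 (n + 1) ≤ n + 1 := Nat.pow_log_le_self 2 (by omega)
  omega

lemma ll_jump {n : ℕ} (hn : 2 ≤ n) (h : ll (n + 1) ≠ ll n) : ∃ j, n + 1 = 2 ^ 2 ^ j := by
  unfold ll at h
  have h1 : Nat.log 2 (n + 1) ≠ Nat.log 2 n := by
    intro e
    exact h (by rw [e])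
  have h2 := log_jump (by omega) h1
  have h3 : 1 ≤ Nat.log 2 n := Nat.le_log_of_pow_le (by norm_num) (by simpa using hn)
  have h5 : Nat.log 2 (n + 1) = Nat.log 2 n + 1 := by
    have h6 : Nat.log 2 n ≤ Nat.log 2 (n + 1) := Nat.log_mono_right (by omega)
    have h7 : n < 2 ^ (Nat.log 2 n + 1) := Nat.lt_pow_succ_log_self (by norm_num) n
    have h8 : n + 1 ≤ 2 ^ (Nat.log 2 n + 1) := h7
    have h9 : Nat.log 2 (n + 1) ≤ Nat.log 2 n + 1 := by
      have := Nat.log_mono_right (b := 2) h8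
      rwa [Nat.log_pow (by norm_num)] at this
    omega
  rw [h5] at h h2
  have h10 := log_jump h3 h
  exact ⟨_, by rw [h2]; congr 1⟩

lemma ll_jump_gap {n m : ℕ} (hn : 2 ≤ n) (hnm : n < m) (h : ll (n + 1) ≠ ll n)
    (h' : ll (m + 1) ≠ ll m) : n + n ≤ m := by
  obtain ⟨i, hi⟩ := ll_jump hn h
  obtain ⟨j, hj⟩ := ll_jump (by omega) h'
  have hij : i < j := by
    by_contra hc
    push Not at hc
    have h1 : 2 ^ 2 ^ j ≤ 2 ^ 2 ^ i :=
      Nat.pow_le_pow_right (by norm_num) (Nat.pow_le_pow_right (by norm_num) hc)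
    omega
  have h2 : 2 ^ 2 ^ (i + 1) ≤ 2 ^ 2 ^ j :=
    Nat.pow_le_pow_right (by norm_num) (Nat.pow_le_pow_right (by norm_num) hij)
  have h3 : 2 ^ 2 ^ (i + 1) = 2 ^ 2 ^ i * 2 ^ 2 ^ i := by
    rw [← pow_add, pow_succ]
    congr 1
    ring
  rw [h3, ← hi, ← hj] at h2
  nlinarith

/-- The linear case. -/
lemma build_linear {a : ℕ} (ha : 2 ≤ a) (b : ℕ) :
    ∃ x : ℕ → ZMod a, SparseDefects x ∧
      ∀ k n, ll (n + k) = ll n → x (a * n + b + k) = (ll n : ZMod a) + k := by
  refine ⟨fun i => (ll ((i - b) / a) : ZMod a) + ((i - b : ℕ) : ZMod a), ?_, ?_⟩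
  · -- defects
    have hdef : ∀ i, b + 2 * a ≤ i →
        Defect (fun i => (ll ((i - b) / a) : ZMod a) + ((i - b : ℕ) : ZMod a)) i →
        ll ((i - b) / a + 1) ≠ ll ((i - b) / a) ∧ (i - b + 1) = a * ((i - b) / a + 1) := by
      intro i hi hd
      unfold Defect at hd
      have e1 : i + 1 - b = (i - b) + 1 := by omega
      simp only [e1] at hd
      have hne : ((i - b) + 1) / a ≠ (i - b) / a := by
        intro e
        apply hd
        rw [e]
        push_cast
        ring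
      have h1 : ((i - b) + 1) / a = (i - b) / a + 1 ∧ a ∣ (i - b) + 1 := by
        rw [Nat.succ_div] at hne ⊢
        by_cases hdv : a ∣ (i - b) + 1
        · rw [if_pos hdv]
          exact ⟨rfl, hdv⟩
        · rw [if_neg hdv] at hne
          omega
      constructor
      · intro e
        apply hd
        rw [h1.1, e]
        push_cast
        ring
      · rw [← h1.1]
        exact (Nat.mul_div_cancel' h1.2).symm
    intro L
    refine ⟨b + 2 * a + a * L, ?_⟩
    rintro i j hi hij hjL ⟨h1, h2⟩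
    obtain ⟨h3, h4⟩ := hdef i (by omega) h1
    obtain ⟨h5, h6⟩ := hdef j (by omega) h2
    set n := (i - b) / a with hn
    set m := (j - b) / a with hm
    have hnm : n < m := by
      by_contra hc
      push Not at hc
      have : a * (m + 1) ≤ a * (n + 1) := Nat.mul_le_mul_left a (by omega)
      omega
    have hn2 : 2 + L ≤ n := by
      rw [hn, Nat.le_div_iff_mul_le (by omega)]
      have : (2 + L) * a = 2 * a + a * L := by ring
      omega
    have h7 := ll_jump_gap (by omega) hnm h3 h5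
    have h8 : a * (n + n) ≤ a * m := Nat.mul_le_mul_left a h7
    have h9 : 2 * n ≤ a * n := Nat.mul_le_mul_right n ha
    have e1 : a * (n + 1) = a * n + a := by ring
    have e2 : a * (m + 1) = a * m + a := by ring
    have e3 : a * (n + n) = a * n + a * n := by ring
    omega
  · intro k n hk
    have e : a * n + b + k - b = k + a * n := by omega
    simp only [e]
    rw [Nat.add_mul_div_left k n (by omega)]
    have h1 : ll (k / a + n) = ll n := by
      apply le_antisymm
      · rw [← hk]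
        apply ll_mono
        have : k / a ≤ k := Nat.div_le_self _ _
        omega
      · exact ll_mono (Nat.le_add_left n _)
    rw [h1]
    push_cast
    rw [ZMod.natCast_self]
    ring

/-- The superlinear case. -/
lemma build_super (P : ℕ → ℕ) (hP : ∀ G, ∃ n₀, ∀ n, n₀ ≤ n → P n + G ≤ P (n + 1)) :
    ∃ x : ℕ → ZMod 2, SparseDefects x ∧
      ∀ k, ∃ n₁, ∀ n, n₁ ≤ n → x (P n + k) = (ll n : ZMod 2) + k := by
  classical
  obtain ⟨n₀, hn₀⟩ := hP 1
  have hmono : ∀ n m, n₀ ≤ n → n ≤ m → P n + (m - n) ≤ P m := by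
    intro n m hn hm
    induction m, hm using Nat.le_induction with
    | base => simp
    | succ m hm ih =>
      have := hn₀ m (by omega)
      omega
  let ν : ℕ → ℕ := fun k => Nat.findGreatest (fun n => n₀ ≤ n ∧ P n ≤ k) (n₀ + k)
  have hν : ∀ n i, n₀ ≤ n → P n + i < P (n + 1) → ν (P n + i) = n := by
    intro n i hn hi
    simp only [ν]
    rw [Nat.findGreatest_eq_iff]
    have h1 := hmono n₀ n le_rfl hn
    refine ⟨by omega, fun _ => ⟨hn, by omega⟩, ?_⟩
    rintro m hm1 hm2 ⟨hm3, hm4⟩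
    have := hmono (n + 1) m (by omega) (by omega)
    omega
  let x : ℕ → ZMod 2 := fun k => (ll (ν k) : ZMod 2) + ((k - P (ν k) : ℕ) : ZMod 2)
  have hx : ∀ n i, n₀ ≤ n → P n + i < P (n + 1) → x (P n + i) = (ll n : ZMod 2) + i := by
    intro n i hn hi
    simp only [x]
    rw [hν n i hn hi, Nat.add_sub_cancel_left]
  have hex : ∀ k, P n₀ ≤ k → ∃ n i, n₀ ≤ n ∧ P n + i < P (n + 1) ∧ k = P n + i := by
    intro k hk
    have h1 : n₀ ≤ ν k ∧ P (ν k) ≤ k :=
      Nat.findGreatest_spec (P := fun n => n₀ ≤ n ∧ P n ≤ k) (m := n₀) (by omega) ⟨le_rfl, hk⟩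
    refine ⟨ν k, k - P (ν k), h1.1, ?_, by omega⟩
    have h2 : ¬ (n₀ ≤ ν k + 1 ∧ P (ν k + 1) ≤ k) := by
      intro hc
      have h3 := hmono n₀ (ν k + 1) le_rfl (by omega)
      have h4 : ν k + 1 ≤ ν k :=
        Nat.le_findGreatest (P := fun n => n₀ ≤ n ∧ P n ≤ k) (by omega) hc
      omega
    have h5 : ¬ P (ν k + 1) ≤ k := fun h => h2 ⟨by omega, h⟩
    omega
  have hdef : ∀ k, P n₀ ≤ k → Defect x k → ∃ n, n₀ ≤ n ∧ k + 1 = P (n + 1) := by
    intro k hk hd
    obtain ⟨n, i, hn, hi, rfl⟩ := hex k hk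
    refine ⟨n, hn, ?_⟩
    by_contra hne
    apply hd
    have h1 := hx n i hn hi
    have h2 := hx n (i + 1) hn (by omega)
    rw [add_assoc, h1, h2]
    push_cast
    ring
  refine ⟨x, ?_, ?_⟩
  · intro L
    obtain ⟨n₁, hn₁⟩ := hP L
    refine ⟨P n₀ + P (max n₀ n₁ + 1), ?_⟩
    rintro i j hi hij hjL ⟨h1, h2⟩
    obtain ⟨n, hn, hni⟩ := hdef i (by omega) h1
    obtain ⟨m, hm, hmj⟩ := hdef j (by omega) h2
    have hn1 : n₁ ≤ n := by
      by_contra hc
      push Not at hc
      have := hmono (n + 1) (max n₀ n₁ + 1) (by omega) (by omega)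
      omega
    have hnm : n < m := by
      by_contra hc
      push Not at hc
      have := hmono (m + 1) (n + 1) (by omega) (by omega)
      omega
    have h3 := hn₁ (n + 1) (by omega)
    have h4 := hmono (n + 1 + 1) (m + 1) (by omega) (by omega)
    omega
  · intro k
    obtain ⟨n₁, hn₁⟩ := hP (k + 1)
    refine ⟨max n₀ n₁, fun n hn => ?_⟩
    apply hx n k (by omega)
    have := hn₁ n (by omega)
    omega

end Pool.Agent.Work.MP_8b8979_an
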