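import Pool.Agent.Work.MP_8b8979_an.Build

open MeasureTheory Filter Topology Set

namespace Pool.Agent.Work.MP_8b8979_an

/-! ### Divergence -/

/-- The polynomial averages. -/
noncomputable def avg {X : Type*} (T : X → X) (P : ℕ → ℕ) (f : X → ℝ) (x : X) (N : ℕ) : ℝ :=
  (N : ℝ)⁻¹ * ∑ n ∈ Finset.range N, f (T^[P n] x)

lemma two_pow_le (j : ℕ) : j ≤ 2 ^ 2 ^ j := by
  have h1 : j < 2 ^ j := Nat.lt_two_pow_self
  have h2 : 2 ^ j < 2 ^ 2 ^ j := Nat.lt_two_pow_self
  omega

/-- The indicator averages diverge. -/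
lemma diverge {a : ℕ} (ha : 2 ≤ a) (x : ℕ → ZMod a) (P : ℕ → ℕ) (k n₁ : ℕ)
    (hx : ∀ n, n₁ ≤ n → ll (n + k) = ll n → x (P n + k) = (ll n : ZMod a) + k) :
    ¬ ∃ L : ℝ, Tendsto (fun N : ℕ => (N : ℝ)⁻¹ *
      ∑ n ∈ Finset.range N, (if x (P n + k) = 0 then (1 : ℝ) else 0)) atTop (𝓝 L) := by
  rintro ⟨L, hL⟩
  have : NeZero a := ⟨by omega⟩
  have : Fact (1 < a) := ⟨by omega⟩
  have : Nontrivial (ZMod a) := ZMod.nontrivial a
  set g : ℕ → ℝ := fun n => if x (P n + k) = 0 then (1 : ℝ) else 0 with hg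
  have hg0 : ∀ n, 0 ≤ g n := fun n => by simp only [hg]; split_ifs <;> norm_num
  have hg1 : ∀ n, g n ≤ 1 := fun n => by simp only [hg]; split_ifs <;> norm_num
  -- the times
  let N : ℕ → ℕ := fun j => 2 ^ 2 ^ (j + 1) - k
  have hsq : ∀ j : ℕ, 2 ^ 2 ^ (j + 1) = 2 ^ 2 ^ j * 2 ^ 2 ^ j := by
    intro j
    rw [← pow_add, pow_succ]
    congr 1
    ring
  have hNlarge : ∀ j, max (max k n₁) 2 ≤ j → 2 ^ 2 ^ j * 2 ^ 2 ^ j ≤ 2 * N j ∧ 2 ^ 2 ^ j ≤ N j := by
    intro j hj
    have h1 := two_pow_le j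
    have h2 : j ≤ 2 ^ 2 ^ j := h1
    have h3 := hsq j
    have h4 : 2 ^ 2 ^ j * 2 ≤ 2 ^ 2 ^ j * 2 ^ 2 ^ j := Nat.mul_le_mul_left _ (by omega)
    simp only [N]
    constructor <;> omega
  have hval : ∀ j, max (max k n₁) 2 ≤ j → ∀ n, 2 ^ 2 ^ j ≤ n → n < N j →
      x (P n + k) = (j : ZMod a) + k := by
    intro j hj n h1 h2
    have h0 := two_pow_le j
    have h3 : ll n = j := ll_eq h1 (by simp only [N] at h2; omega)
    have h4 : ll (n + k) = j := ll_eq (by omega) (by simp only [N] at h2; omega)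
    rw [hx n (by omega) (by rw [h3, h4]), h3]
  have hNtop : Tendsto N atTop atTop := by
    apply tendsto_atTop_mono' atTop (f₁ := fun j : ℕ => j)
    · filter_upwards [eventually_ge_atTop (max (max k n₁) 2)] with j hj
      have := (hNlarge j hj).2
      have := two_pow_le j
      omega
    · exact tendsto_id
  -- the two kinds of windows
  have hhigh : ∀ j, max (max k n₁) 2 ≤ j → (j : ZMod a) + k = 0 →
      1 - 2 * (1 / (2 : ℝ) ^ 2 ^ j) ≤ ((N j : ℕ) : ℝ)⁻¹ * ∑ n ∈ Finset.range (N j), g n := by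
    intro j hj hjk
    obtain ⟨h1, h2⟩ := hNlarge j hj
    have hNpos : (0 : ℝ) < (N j : ℝ) := by
      have : 0 < 2 ^ 2 ^ j := by positivity
      exact_mod_cast (show 0 < N j by omega)
    have h3 : ((N j : ℝ) - 2 ^ 2 ^ j) ≤ ∑ n ∈ Finset.range (N j), g n := by
      have h4 : ∑ n ∈ Finset.Ico (2 ^ 2 ^ j) (N j), g n ≤ ∑ n ∈ Finset.range (N j), g n := by
        apply Finset.sum_le_sum_of_subset_of_nonneg
        · intro n hn
          simp only [Finset.mem_Ico, Finset.mem_range] at hn ⊢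
          omega
        · intro n _ _
          exact hg0 n
      have h5 : ∑ n ∈ Finset.Ico (2 ^ 2 ^ j) (N j), g n = ((N j : ℝ) - 2 ^ 2 ^ j) := by
        rw [Finset.sum_congr rfl (g := fun _ => (1 : ℝ))]
        · rw [Finset.sum_const, Nat.card_Ico, nsmul_eq_mul, mul_one, Nat.cast_sub h2]
          push_cast
          ring
        · intro n hn
          simp only [Finset.mem_Ico] at hn
          simp only [hg]
          rw [if_pos]
          rw [hval j hj n hn.1 hn.2, hjk]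
      linarith
    have h6 : (2 : ℝ) ^ 2 ^ j * 2 ^ 2 ^ j ≤ 2 * N j := by exact_mod_cast h1
    have h7 : (0 : ℝ) < 2 ^ 2 ^ j := by positivity
    rw [le_inv_mul_iff₀ hNpos]
    have h8 : (2 : ℝ) ^ 2 ^ j ≤ N j * (2 * (1 / 2 ^ 2 ^ j)) := by
      rw [mul_one_div, mul_div_assoc', le_div_iff₀ h7]
      linarith
    linarith
  have hlow : ∀ j, max (max k n₁) 2 ≤ j → (j : ZMod a) + k ≠ 0 →
      ((N j : ℕ) : ℝ)⁻¹ * ∑ n ∈ Finset.range (N j), g n ≤ 2 * (1 / (2 : ℝ) ^ 2 ^ j) := by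
    intro j hj hjk
    obtain ⟨h1, h2⟩ := hNlarge j hj
    have hNpos : (0 : ℝ) < (N j : ℝ) := by
      have : 0 < 2 ^ 2 ^ j := by positivity
      exact_mod_cast (show 0 < N j by omega)
    have h3 : ∑ n ∈ Finset.range (N j), g n ≤ 2 ^ 2 ^ j := by
      have h4 : ∑ n ∈ Finset.range (N j), g n =
          ∑ n ∈ Finset.range (2 ^ 2 ^ j), g n + ∑ n ∈ Finset.Ico (2 ^ 2 ^ j) (N j), g n :=
        (Finset.sum_range_add_sum_Ico g h2).symm
      have h5 : ∑ n ∈ Finset.Ico (2 ^ 2 ^ j) (N j), g n = 0 := by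
        apply Finset.sum_eq_zero
        intro n hn
        simp only [Finset.mem_Ico] at hn
        simp only [hg]
        rw [if_neg]
        rw [hval j hj n hn.1 hn.2]
        exact hjk
      have h6 : ∑ n ∈ Finset.range (2 ^ 2 ^ j), g n ≤ ∑ n ∈ Finset.range (2 ^ 2 ^ j), (1 : ℝ) :=
        Finset.sum_le_sum fun n _ => hg1 n
      rw [Finset.sum_const, Finset.card_range, nsmul_eq_mul, mul_one] at h6
      push_cast at h6
      linarith
    have h6 : (2 : ℝ) ^ 2 ^ j * 2 ^ 2 ^ j ≤ 2 * N j := by exact_mod_cast h1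
    have h7 : (0 : ℝ) < 2 ^ 2 ^ j := by positivity
    rw [inv_mul_le_iff₀ hNpos]
    have h8 : (2 : ℝ) ^ 2 ^ j ≤ N j * (2 * (1 / 2 ^ 2 ^ j)) := by
      rw [mul_one_div, mul_div_assoc', le_div_iff₀ h7]
      linarith
    linarith
  -- limits along the two subsequences
  have hsmall : Tendsto (fun j : ℕ => 2 * (1 / (2 : ℝ) ^ 2 ^ j)) atTop (𝓝 0) := by
    have h1 : Tendsto (fun n : ℕ => (1 / 2 : ℝ) ^ n) atTop (𝓝 0) :=
      tendsto_pow_atTop_nhds_zero_of_lt_one (by norm_num) (by norm_num)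
    have h2 : Tendsto (fun j : ℕ => 2 ^ j) atTop atTop :=
      tendsto_pow_atTop_atTop_of_one_lt (by norm_num)
    have h3 := (h1.comp h2).const_mul 2
    rw [mul_zero] at h3
    refine h3.congr fun j => ?_
    simp [one_div, inv_pow]
  have hLN : Tendsto (fun j => ((N j : ℕ) : ℝ)⁻¹ * ∑ n ∈ Finset.range (N j), g n) atTop (𝓝 L) :=
    hL.comp hNtop
  have hinf0 : ∃ᶠ j : ℕ in atTop, (j : ZMod a) + k = 0 := by
    rw [frequently_atTop]
    intro b
    refine ⟨a * (b + k) + (a * k - k), ?_, ?_⟩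
    · have : b + k ≤ a * (b + k) := Nat.le_mul_of_pos_left _ (by omega)
      omega
    · have h1 : k ≤ a * k := Nat.le_mul_of_pos_left _ (by omega)
      push_cast [Nat.cast_sub h1]
      rw [ZMod.natCast_self]
      ring
  have hinf1 : ∃ᶠ j : ℕ in atTop, (j : ZMod a) + k ≠ 0 := by
    rw [frequently_atTop]
    intro b
    refine ⟨a * (b + k) + (a * k - k) + 1, ?_, ?_⟩
    · have : b + k ≤ a * (b + k) := Nat.le_mul_of_pos_left _ (by omega)
      omega
    · have h1 : k ≤ a * k := Nat.le_mul_of_pos_left _ (by omega)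
      push_cast [Nat.cast_sub h1]
      rw [ZMod.natCast_self]
      have e : (0 : ZMod a) * (b + k) + (0 * k - k) + 1 + k = 1 := by ring
      rw [e]
      exact one_ne_zero
  have hL1 : 1 ≤ L := by
    by_contra hc
    push Not at hc
    have h1 := hLN.eventually (eventually_lt_nhds (show L < (1 + L) / 2 by linarith))
    have h2 := hsmall.eventually (eventually_lt_nhds (show (0 : ℝ) < (1 - L) / 2 by linarith))
    obtain ⟨j, hj, h3, h4, h5⟩ := (hinf0.and_eventually
      (h1.and (h2.and (eventually_ge_atTop (max (max k n₁) 2))))).exists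
    have := hhigh j h5 hj
    linarith
  have hL0 : L ≤ 0 := by
    by_contra hc
    push Not at hc
    have h1 := hLN.eventually (eventually_gt_nhds (show L / 2 < L by linarith))
    have h2 := hsmall.eventually (eventually_lt_nhds (show (0 : ℝ) < L / 2 by linarith))
    obtain ⟨j, hj, h3, h4, h5⟩ := (hinf1.and_eventually
      (h1.and (h2.and (eventually_ge_atTop (max (max k n₁) 2))))).exists
    have := hlow j h5 hj
    linarith
  linarith

/-- From a phase sequence to a system. -/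
theorem system {a : ℕ} (ha : 2 ≤ a) (x : ℕ → ZMod a) (hx : SparseDefects x) (P : ℕ → ℕ)
    (hP : ∀ k, ∃ n₁, ∀ n, n₁ ≤ n → ll (n + k) = ll n → x (P n + k) = (ll n : ZMod a) + k) :
    ∃ (X : Type) (_ : MetricSpace X) (_ : CompactSpace X) (_ : MeasurableSpace X)
      (_ : BorelSpace X) (T : X → X), Continuous T ∧ UniquelyErgodic T ∧
      ∃ f : C(X, ℝ), ∃ U : Set X, IsOpen U ∧ Dense U ∧
        ∀ u ∈ U, ¬ ∃ L : ℝ, Tendsto (fun N : ℕ => avg T P f u N) atTop (𝓝 L) := by
  have : NeZero a := ⟨by omega⟩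
  let _ : MetricSpace (Sp x) := TopologicalSpace.metrizableSpaceMetric (Sp x)
  let _ : MeasurableSpace (Sp x) := borel (Sp x)
  have hB : BorelSpace (Sp x) := ⟨rfl⟩
  have hcomp : CompactSpace (Sp x) := inferInstance
  refine ⟨Sp x, inferInstance, inferInstance, inferInstance, hB, mp x, mp_continuous x, ?_, ?_⟩
  · obtain ⟨μ, h1, h2, _⟩ := exists_invariant (mp x) (mp_continuous x) (pt x 0)
      (Filter.hyperfilter ℕ) Nat.hyperfilter_le_atTop
    refine ⟨μ, ⟨h1, h2⟩, ?_⟩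
    rintro ν ⟨h3, h4⟩
    exact measure_eq x hx h4 h2
  · have hfc : Continuous (fun e : Sp x => if e.1.2 0 = 0 then (1 : ℝ) else 0) := by
      have h1 : Continuous (fun z : ZMod a => if z = 0 then (1 : ℝ) else 0) :=
        continuous_of_discreteTopology
      exact h1.comp ((continuous_apply 0).comp (continuous_snd.comp continuous_subtype_val))
    refine ⟨⟨_, hfc⟩, marked x, marked_open x, marked_dense x, ?_⟩
    intro u hu
    obtain ⟨k, rfl⟩ := marked_eq x hu
    obtain ⟨n₁, hn₁⟩ := hP k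
    have hd := diverge ha x P k n₁ hn₁
    intro ⟨L, hL⟩
    apply hd
    refine ⟨L, hL.congr fun N => ?_⟩
    unfold avg
    congr 1
    apply Finset.sum_congr rfl
    intro n _
    simp only [ContinuousMap.coe_mk]
    rw [mp_iter_pt]
    simp only [pt, orb, zero_add]
    rw [add_comm k (P n)]

end Pool.Agent.Work.MP_8b8979_an
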