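import Pool.Agent.Work.MP_8b8979_an.UE

/-!
# A uniquely ergodic system from a phase sequence with sparse defects
-/

open MeasureTheory Filter Topology Set

namespace Pool.Agent.Work.MP_8b8979_an

section

variable {a : ℕ}

/-- The ambient map. -/
noncomputable def amb (e : ℝ × (ℕ → ZMod a)) : ℝ × (ℕ → ZMod a) :=
  (e.1 / (1 + |e.1|), fun i => e.2 (i + 1))

lemma amb_continuous : Continuous (amb (a := a)) := by
  unfold amb
  apply Continuous.prodMk
  · apply Continuous.div continuous_fst (by fun_prop)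
    intro e
    have := abs_nonneg e.1
    linarith
  · apply continuous_pi
    intro i
    exact (continuous_apply (i + 1)).comp continuous_snd

/-- The marked orbit. -/
noncomputable def orb (x : ℕ → ZMod a) (k : ℕ) : ℝ × (ℕ → ZMod a) :=
  (1 / ((k : ℝ) + 1), fun i => x (i + k))

lemma amb_orb (x : ℕ → ZMod a) (k : ℕ) : amb (orb x k) = orb x (k + 1) := by
  unfold amb orb
  have h : (0 : ℝ) < (k : ℝ) + 1 := by positivity
  ext i
  · simp only
    rw [abs_of_pos (by positivity)]
    push_cast
    field_simp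
  · simp only
    rw [add_assoc, add_comm 1 k]

/-- The closure of the marked orbit. -/
def hull (x : ℕ → ZMod a) : Set (ℝ × (ℕ → ZMod a)) := closure (Set.range (orb x))

lemma amb_hull (x : ℕ → ZMod a) {e : ℝ × (ℕ → ZMod a)} (he : e ∈ hull x) : amb e ∈ hull x := by
  have h1 : hull x ⊆ amb ⁻¹' (hull x) := by
    apply closure_minimal _ (isClosed_closure.preimage amb_continuous)
    rintro _ ⟨k, rfl⟩
    show amb (orb x k) ∈ hull x
    rw [amb_orb]
    exact subset_closure ⟨k + 1, rfl⟩
  exact h1 he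

/-- The space. -/
abbrev Sp (x : ℕ → ZMod a) : Type := {e : ℝ × (ℕ → ZMod a) // e ∈ hull x}

/-- The map of the space. -/
noncomputable def mp (x : ℕ → ZMod a) (e : Sp x) : Sp x := ⟨amb e.1, amb_hull x e.2⟩

lemma mp_continuous (x : ℕ → ZMod a) : Continuous (mp x) :=
  Continuous.subtype_mk (amb_continuous.comp continuous_subtype_val) _

/-- The marked orbit in the space. -/
noncomputable def pt (x : ℕ → ZMod a) (k : ℕ) : Sp x := ⟨orb x k, subset_closure ⟨k, rfl⟩⟩

lemma mp_pt (x : ℕ → ZMod a) (k : ℕ) : mp x (pt x k) = pt x (k + 1) :=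
  Subtype.ext (amb_orb x k)

lemma mp_iter_pt (x : ℕ → ZMod a) (k n : ℕ) : (mp x)^[n] (pt x k) = pt x (k + n) := by
  induction n with
  | zero => rfl
  | succ n ih => rw [Function.iterate_succ_apply', ih, mp_pt, add_assoc]

lemma hull_fst (x : ℕ → ZMod a) {e : ℝ × (ℕ → ZMod a)} (he : e ∈ hull x) :
    0 ≤ e.1 ∧ e.1 ≤ 1 := by
  have h1 : hull x ⊆ {e | 0 ≤ e.1 ∧ e.1 ≤ 1} := by
    apply closure_minimal
    · rintro _ ⟨k, rfl⟩
      unfold orb
      simp only [Set.mem_ofPred_eq]
      constructor
      · positivity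
      · rw [div_le_one (by positivity)]
        have : (0 : ℝ) ≤ k := by positivity
        linarith
    · exact (isClosed_le continuous_const continuous_fst).inter
        (isClosed_le continuous_fst continuous_const)
  exact h1 he

instance [NeZero a] (x : ℕ → ZMod a) : CompactSpace (Sp x) := by
  rw [← isCompact_iff_compactSpace]
  have h1 : IsCompact ((Set.Icc (0 : ℝ) 1) ×ˢ (Set.univ : Set (ℕ → ZMod a))) :=
    isCompact_Icc.prod isCompact_univ
  apply h1.of_isClosed_subset isClosed_closure
  intro e he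
  exact ⟨hull_fst x he, trivial⟩

lemma eq_orb_of_ne (x : ℕ → ZMod a) {e : ℝ × (ℕ → ZMod a)} (he : e ∈ hull x) (h : e.1 ≠ 0) :
    ∃ k, e = orb x k := by
  have hpos : 0 < e.1 := lt_of_le_of_ne (hull_fst x he).1 (Ne.symm h)
  obtain ⟨K, hK⟩ := exists_nat_one_div_lt hpos
  have h1 : hull x ⊆ (orb x '' Set.Iio K) ∪ {e | e.1 ≤ 1 / ((K : ℝ) + 1)} := by
    apply closure_minimal
    · rintro _ ⟨k, rfl⟩
      rcases Nat.lt_or_ge k K with hk | hk
      · exact Or.inl ⟨k, hk, rfl⟩
      · right
        simp only [orb, Set.mem_ofPred_eq]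
        apply one_div_le_one_div_of_le (by positivity)
        have : (K : ℝ) ≤ k := by exact_mod_cast hk
        linarith
    · exact ((Set.finite_Iio K).image _).isClosed.union
        (isClosed_le continuous_fst continuous_const)
  rcases h1 he with ⟨k, _, hk⟩ | h2
  · exact ⟨k, hk.symm⟩
  · exact absurd h2 (not_le.mpr hK)

/-- A defect of a sequence at `i`. -/
def Defect (y : ℕ → ZMod a) (i : ℕ) : Prop := y (i + 1) ≠ y i + 1

lemma isClopen_defect (i : ℕ) : IsClopen {e : ℝ × (ℕ → ZMod a) | Defect e.2 i} := by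
  have hc : Continuous (fun e : ℝ × (ℕ → ZMod a) => (e.2 (i + 1), e.2 i)) :=
    ((continuous_apply (i + 1)).comp continuous_snd).prodMk
      ((continuous_apply i).comp continuous_snd)
  have : {e : ℝ × (ℕ → ZMod a) | Defect e.2 i} =
      (fun e : ℝ × (ℕ → ZMod a) => (e.2 (i + 1), e.2 i)) ⁻¹' {q | q.1 ≠ q.2 + 1} := rfl
  rw [this]
  exact (isClopen_discrete _).preimage hc

/-- The gaps of the defects tend to infinity. -/
def SparseDefects (x : ℕ → ZMod a) : Prop :=
  ∀ L : ℕ, ∃ K : ℕ, ∀ i j, K ≤ i → i < j → j < i + L → ¬ (Defect x i ∧ Defect x j)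

lemma one_defect (x : ℕ → ZMod a) (hx : SparseDefects x) {e : ℝ × (ℕ → ZMod a)}
    (he : e ∈ hull x) (h0 : e.1 = 0) {i j : ℕ} (hij : i < j) :
    ¬ (Defect e.2 i ∧ Defect e.2 j) := by
  obtain ⟨K, hK⟩ := hx (j - i + 1)
  have h1 : hull x ⊆ (orb x '' Set.Iio K) ∪ {e | ¬ (Defect e.2 i ∧ Defect e.2 j)} := by
    apply closure_minimal
    · rintro _ ⟨k, rfl⟩
      rcases Nat.lt_or_ge k K with hk | hk
      · exact Or.inl ⟨k, hk, rfl⟩
      · right
        have := hK (i + k) (j + k) (by omega) (by omega) (by omega)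
        simp only [Set.mem_ofPred_eq, Defect, orb] at this ⊢
        rw [show i + 1 + k = i + k + 1 by ring, show j + 1 + k = j + k + 1 by ring]
        exact this
    · apply ((Set.finite_Iio K).image _).isClosed.union
      have : {e : ℝ × (ℕ → ZMod a) | ¬ (Defect e.2 i ∧ Defect e.2 j)} =
          ({e | Defect e.2 i} ∩ {e | Defect e.2 j})ᶜ := rfl
      rw [this]
      exact ((isClopen_defect i).inter (isClopen_defect j)).compl.isClosed
  rcases h1 he with ⟨k, _, hk⟩ | h2
  · exfalso
    rw [← hk] at h0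
    simp only [orb] at h0
    have : (0 : ℝ) < 1 / ((k : ℝ) + 1) := by positivity
    linarith
  · exact h2

lemma mp_iter_snd (x : ℕ → ZMod a) (e : Sp x) (n i : ℕ) :
    (((mp x)^[n] e).1).2 i = e.1.2 (i + n) := by
  induction n generalizing i with
  | zero => rfl
  | succ n ih =>
    rw [Function.iterate_succ_apply']
    show (((mp x)^[n] e).1).2 (i + 1) = _
    rw [ih, add_assoc, add_comm 1 n]

lemma mp_iter_fst_zero (x : ℕ → ZMod a) (e : Sp x) (h : e.1.1 = 0) (n : ℕ) :
    (((mp x)^[n] e).1).1 = 0 := by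
  induction n with
  | zero => exact h
  | succ n ih =>
    rw [Function.iterate_succ_apply']
    show ((mp x)^[n] e).1.1 / (1 + |((mp x)^[n] e).1.1|) = 0
    rw [ih]
    simp

/-- The open dense set of marked points. -/
def marked (x : ℕ → ZMod a) : Set (Sp x) := {e | e.1.1 ≠ 0}

lemma marked_open (x : ℕ → ZMod a) : IsOpen (marked x) :=
  isOpen_ne_fun (continuous_fst.comp continuous_subtype_val) continuous_const

lemma marked_dense (x : ℕ → ZMod a) : Dense (marked x) := by
  intro e
  rw [closure_subtype]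
  apply closure_mono _ e.2
  rintro _ ⟨k, rfl⟩
  refine ⟨pt x k, ?_, rfl⟩
  simp only [marked, Set.mem_ofPred_eq, pt, orb]
  positivity

lemma marked_eq (x : ℕ → ZMod a) {e : Sp x} (he : e ∈ marked x) : ∃ k, e = pt x k := by
  obtain ⟨k, hk⟩ := eq_orb_of_ne x e.2 he
  exact ⟨k, Subtype.ext hk⟩

end

section measure

variable {a : ℕ} [NeZero a]

/-- The points of the cyclic orbit. -/
def cyc (x : ℕ → ZMod a) (r : ZMod a) : Set (Sp x) :=
  {e | e.1.1 = 0 ∧ ∀ i : ℕ, e.1.2 i = r + i}

omit [NeZero a] in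
lemma cyc_subsingleton (x : ℕ → ZMod a) (r : ZMod a) : (cyc x r).Subsingleton := by
  rintro e ⟨h1, h2⟩ e' ⟨h1', h2'⟩
  apply Subtype.ext
  apply Prod.ext
  · rw [h1, h1']
  · funext i
    rw [h2, h2']

omit [NeZero a] in
lemma cyc_disjoint (x : ℕ → ZMod a) {r s : ZMod a} (h : r ≠ s) : Disjoint (cyc x r) (cyc x s) := by
  rw [Set.disjoint_left]
  rintro e ⟨_, h2⟩ ⟨_, h2'⟩
  apply h
  have h3 := h2 0
  have h4 := h2' 0
  rw [h3] at h4
  simpa using h4

omit [NeZero a] in
lemma cyc_closed (x : ℕ → ZMod a) (r : ZMod a) : IsClosed (cyc x r) := by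
  have : cyc x r = {e : Sp x | e.1.1 = 0} ∩ ⋂ i : ℕ, {e : Sp x | e.1.2 i = r + i} := by
    ext e
    simp [cyc]
  rw [this]
  apply (isClosed_eq (continuous_fst.comp continuous_subtype_val) continuous_const).inter
  apply isClosed_iInter
  intro i
  exact isClosed_eq ((continuous_apply i).comp (continuous_snd.comp continuous_subtype_val))
    continuous_const

variable (x : ℕ → ZMod a) (hx : SparseDefects x) [MeasurableSpace (Sp x)] [BorelSpace (Sp x)]

omit [NeZero a] in
include hx in
lemma ae_cyc {μ : Measure (Sp x)} [IsProbabilityMeasure μ] (hμ : MeasurePreserving (mp x) μ μ) :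
    ∀ᵐ e ∂μ, ∃ r, e ∈ cyc x r := by
  have hcons : Conservative (mp x) μ := hμ.conservative
  -- the marked points are null
  have h1 : ∀ k : ℕ, ∀ᵐ e ∂μ, e.1.1 ≠ 1 / ((k : ℝ) + 1) := by
    intro k
    have hmeas : MeasurableSet {e : Sp x | e.1.1 = 1 / ((k : ℝ) + 1)} :=
      (isClosed_eq (continuous_fst.comp continuous_subtype_val) continuous_const).measurableSet
    have h2 := hcons.ae_mem_imp_frequently_image_mem hmeas.nullMeasurableSet
    filter_upwards [h2] with e he hek
    have h3 := he hek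
    have hne : e.1.1 ≠ 0 := by
      rw [hek]
      positivity
    obtain ⟨j, rfl⟩ := marked_eq x hne
    obtain ⟨n, hn, hn1⟩ := (frequently_atTop.mp h3) 1
    rw [mp_iter_pt] at hn1
    simp only [pt, orb] at hn1 hek
    rw [← hek] at hn1
    have h4 : ((j + n : ℕ) : ℝ) + 1 = (j : ℝ) + 1 := by
      have h5 : (0 : ℝ) < ((j + n : ℕ) : ℝ) + 1 := by positivity
      have h6 : (0 : ℝ) < (j : ℝ) + 1 := by positivity
      field_simp at hn1
      linarith
    have h5 : ((j + n : ℕ) : ℝ) = (j : ℝ) := by linarith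
    have h6 : j + n = j := by exact_mod_cast h5
    omega
  have h0 : ∀ᵐ e ∂μ, e.1.1 = 0 := by
    filter_upwards [ae_all_iff.mpr h1] with e he
    by_contra hne
    obtain ⟨k, rfl⟩ := marked_eq x hne
    exact he k rfl
  -- defects are null
  have h2 : ∀ᵐ e ∂μ, ¬ Defect e.1.2 0 := by
    have hmeas : MeasurableSet {e : Sp x | Defect e.1.2 0} :=
      ((isClopen_defect 0).preimage continuous_subtype_val).isOpen.measurableSet
    have h3 := hcons.ae_mem_imp_frequently_image_mem hmeas.nullMeasurableSet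
    filter_upwards [h3, h0] with e he he0 hd
    obtain ⟨n, hn, hn1⟩ := (frequently_atTop.mp (he hd)) 1
    unfold Defect at hn1
    rw [mp_iter_snd, mp_iter_snd] at hn1
    apply one_defect x hx e.2 he0 (i := 0) (j := n) (by omega)
    refine ⟨hd, ?_⟩
    unfold Defect
    rw [show 0 + 1 + n = n + 1 by ring, show 0 + n = n by ring] at hn1
    exact hn1
  have h3 : ∀ i : ℕ, ∀ᵐ e ∂μ, ¬ Defect e.1.2 i := by
    intro i
    have h4 := (hμ.iterate i).quasiMeasurePreserving.ae h2
    filter_upwards [h4] with e he hd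
    apply he
    unfold Defect
    rw [mp_iter_snd, mp_iter_snd]
    unfold Defect at hd
    rw [show 0 + 1 + i = i + 1 by ring, show 0 + i = i by ring]
    exact hd
  filter_upwards [h0, ae_all_iff.mpr h3] with e he0 hed
  refine ⟨e.1.2 0, he0, ?_⟩
  intro i
  induction i with
  | zero => simp
  | succ i ih =>
    have h4 := hed i
    unfold Defect at h4
    push Not at h4
    rw [h4, ih]
    push_cast
    ring

include hx in
lemma measure_cyc {μ : Measure (Sp x)} [IsProbabilityMeasure μ]
    (hμ : MeasurePreserving (mp x) μ μ) (r : ZMod a) : μ (cyc x r) = (a : ENNReal)⁻¹ := by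
  have hae := ae_cyc x hx hμ
  have hmeas : ∀ r, MeasurableSet (cyc x r) := fun r => (cyc_closed x r).measurableSet
  have hstep : ∀ r, μ (cyc x (r + 1)) = μ (cyc x r) := by
    intro r
    rw [← hμ.measure_preimage (hmeas (r + 1)).nullMeasurableSet]
    apply measure_congr
    filter_upwards [hae] with e he
    obtain ⟨s, hs0, hs⟩ := he
    apply propext
    constructor
    · rintro ⟨_, h2⟩
      have h3 : e.1.2 (0 + 1) = r + 1 + ((0 : ℕ) : ZMod a) := h2 0
      have h4 := hs 1
      rw [zero_add, h4] at h3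
      have h5 : s = r := by simpa using h3
      rw [← h5]
      exact ⟨hs0, hs⟩
    · rintro ⟨h1, h2⟩
      refine ⟨?_, ?_⟩
      · show e.1.1 / (1 + |e.1.1|) = 0
        rw [h1]
        simp
      · intro i
        show e.1.2 (i + 1) = r + 1 + i
        rw [h2]
        push_cast
        ring
  have hnat : ∀ n : ℕ, μ (cyc x ((n : ℕ) : ZMod a)) = μ (cyc x 0) := by
    intro n
    induction n with
    | zero => simp
    | succ n ih =>
      push_cast
      rw [hstep, ih]
  have hconst : ∀ s, μ (cyc x s) = μ (cyc x 0) := by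
    intro s
    have := hnat s.val
    rwa [ZMod.natCast_zmod_val] at this
  have hsum : ∑ s : ZMod a, μ (cyc x s) = 1 := by
    have h1 : μ (⋃ s ∈ (Finset.univ : Finset (ZMod a)), cyc x s) = ∑ s : ZMod a, μ (cyc x s) :=
      measure_biUnion_finset (fun s _ t _ hst => cyc_disjoint x hst) (fun s _ => hmeas s)
    rw [← h1, ← measure_univ (μ := μ)]
    apply measure_congr
    filter_upwards [hae] with e he
    apply propext
    constructor
    · intro _
      trivial
    · intro _
      obtain ⟨s, hs⟩ := he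
      show e ∈ ⋃ s ∈ (Finset.univ : Finset (ZMod a)), cyc x s
      simp only [Finset.mem_univ, Set.iUnion_true, Set.mem_iUnion]
      exact ⟨s, hs⟩
  rw [Finset.sum_congr rfl (fun s _ => hconst s), Finset.sum_const, Finset.card_univ,
    ZMod.card, nsmul_eq_mul] at hsum
  rw [hconst]
  exact ENNReal.eq_inv_of_mul_eq_one_left (by rw [mul_comm]; exact hsum)

include hx in
lemma measure_eq {μ ν : Measure (Sp x)} [IsProbabilityMeasure μ] [IsProbabilityMeasure ν]
    (hμ : MeasurePreserving (mp x) μ μ) (hν : MeasurePreserving (mp x) ν ν) : μ = ν := by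
  have hmeas : ∀ r, MeasurableSet (cyc x r) := fun r => (cyc_closed x r).measurableSet
  have key : ∀ (ρ : Measure (Sp x)) [IsProbabilityMeasure ρ], MeasurePreserving (mp x) ρ ρ →
      ∀ B, MeasurableSet B → ρ B = ∑ s : ZMod a, ρ (B ∩ cyc x s) := by
    intro ρ _ hρ B hB
    have h1 : ρ (⋃ s ∈ (Finset.univ : Finset (ZMod a)), (B ∩ cyc x s)) =
        ∑ s : ZMod a, ρ (B ∩ cyc x s) :=
      measure_biUnion_finset (fun s _ t _ hst => (cyc_disjoint x hst).mono
        Set.inter_subset_right Set.inter_subset_right) (fun s _ => hB.inter (hmeas s))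
    rw [← h1]
    apply measure_congr
    filter_upwards [ae_cyc x hx hρ] with e he
    apply propext
    obtain ⟨s, hs⟩ := he
    constructor
    · intro heB
      show e ∈ ⋃ s ∈ (Finset.univ : Finset (ZMod a)), (B ∩ cyc x s)
      simp only [Finset.mem_univ, Set.iUnion_true, Set.mem_iUnion]
      exact ⟨s, heB, hs⟩
    · intro h
      have h' : e ∈ ⋃ s ∈ (Finset.univ : Finset (ZMod a)), (B ∩ cyc x s) := h
      simp only [Finset.mem_univ, Set.iUnion_true, Set.mem_iUnion] at h'
      obtain ⟨t, ht, _⟩ := h'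
      exact ht
  ext B hB
  rw [key μ hμ B hB, key ν hν B hB]
  apply Finset.sum_congr rfl
  intro s _
  by_cases h : ∃ e ∈ cyc x s, e ∈ B
  · obtain ⟨e, he1, he2⟩ := h
    have : B ∩ cyc x s = cyc x s := by
      apply Set.inter_eq_right.mpr
      intro e' he'
      rw [cyc_subsingleton x s he' he1]
      exact he2
    rw [this, measure_cyc x hx hμ, measure_cyc x hx hν]
  · have : B ∩ cyc x s = ∅ := by
      rw [Set.eq_empty_iff_forall_notMem]
      rintro e ⟨he1, he2⟩
      exact h ⟨e, he2, he1⟩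
    rw [this, measure_empty, measure_empty]

end measure

end Pool.Agent.Work.MP_8b8979_an
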