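import Pool.Agent.Work.MP_8b8979_an.Final

open MeasureTheory Filter Topology Set Polynomial

namespace Pool.Agent.Work.MP_8b8979_an

/-- A polynomial of degree at least two, nonnegative on the naturals, has increments tending to
infinity. -/
lemma increments {p : ℤ[X]} (hp : ∀ n : ℕ, 0 ≤ p.eval (n : ℤ)) (hd : 2 ≤ p.natDegree) (G : ℕ) :
    ∃ n₀, ∀ n : ℕ, n₀ ≤ n → p.eval (n : ℤ) + G ≤ p.eval ((n + 1 : ℕ) : ℤ) := by
  set P : ℝ[X] := p.map (Int.castRingHom ℝ) with hP
  have hPdeg : P.natDegree = p.natDegree :=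
    natDegree_map_eq_of_injective (RingHom.injective_int _) p
  have hPeval : ∀ z : ℤ, P.eval (z : ℝ) = ((p.eval z : ℤ) : ℝ) := by
    intro z
    rw [hP, eval_intCast_map]
    simp
  have hP0 : P ≠ 0 := by
    intro h
    rw [h, natDegree_zero] at hPdeg
    omega
  have hlc : 0 < P.leadingCoeff := by
    rcases lt_trichotomy 0 P.leadingCoeff with h | h | h
    · exact h
    · exact absurd h.symm (leadingCoeff_ne_zero.mpr hP0)
    · exfalso
      have h1 : Tendsto (fun x : ℝ => P.eval x) atTop atBot :=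
        P.tendsto_atBot_of_leadingCoeff_nonpos (natDegree_pos_iff_degree_pos.mp (by omega)) h.le
      have h2 := h1.comp tendsto_natCast_atTop_atTop
      obtain ⟨n, hn⟩ := (h2.eventually (eventually_lt_atBot 0)).exists
      have h3 := hp n
      have h4 : (0 : ℝ) ≤ P.eval ((n : ℕ) : ℝ) := by
        have := hPeval (n : ℤ)
        rw [Int.cast_natCast] at this
        rw [this]
        exact_mod_cast h3
      simp only [Function.comp_apply] at hn
      linarith
  have hder_deg : P.derivative.natDegree = P.natDegree - 1 := natDegree_derivative P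
  have hder_lc : 0 ≤ P.derivative.leadingCoeff := by
    rw [leadingCoeff, hder_deg, coeff_derivative, Nat.sub_add_cancel (by omega)]
    have : 0 ≤ P.coeff P.natDegree := hlc.le
    positivity
  have hder : Tendsto (fun x : ℝ => P.derivative.eval x) atTop atTop :=
    P.derivative.tendsto_atTop_of_leadingCoeff_nonneg
      (natDegree_pos_iff_degree_pos.mp (by omega)) hder_lc
  have h1 := hder.eventually (eventually_ge_atTop (G : ℝ))
  rw [eventually_atTop] at h1
  obtain ⟨x₀, hx₀⟩ := h1
  obtain ⟨n₀, hn₀⟩ := exists_nat_ge x₀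
  refine ⟨n₀, fun n hn => ?_⟩
  obtain ⟨ξ, hξ, hξ'⟩ := exists_deriv_eq_slope (fun x => P.eval x)
    (show (n : ℝ) < (n : ℝ) + 1 by linarith) P.continuous.continuousOn
    P.differentiable.differentiableOn
  rw [Polynomial.deriv] at hξ'
  have h2 : (G : ℝ) ≤ P.derivative.eval ξ := by
    apply hx₀
    have : (n₀ : ℝ) ≤ n := by exact_mod_cast hn
    linarith [hξ.1]
  rw [hξ'] at h2
  have h3 : (n : ℝ) + 1 - n = 1 := by ring
  rw [h3, div_one] at h2
  have h4 := hPeval (n : ℤ)
  have h5 := hPeval ((n + 1 : ℕ) : ℤ)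
  push_cast at h4 h5
  rw [h4, h5] at h2
  have h6 : ((p.eval (n : ℤ) + G : ℤ) : ℝ) ≤ ((p.eval ((n : ℤ) + 1) : ℤ) : ℝ) := by
    push_cast
    linarith
  have h7 : p.eval (n : ℤ) + G ≤ p.eval ((n : ℤ) + 1) := by exact_mod_cast h6
  push_cast
  exact h7

end Pool.Agent.Work.MP_8b8979_an
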