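import Mathlib

/-!
# Unique ergodicity and convergence of ergodic averages
-/

open MeasureTheory Filter Topology Set

namespace Pool.Agent.Work.MP_8b8979_an

/-- `(X, T)` is uniquely ergodic: there is exactly one `T`-invariant Borel probability measure. -/
def UniquelyErgodic {X : Type*} [MeasurableSpace X] (T : X → X) : Prop :=
  ∃! μ : Measure X, IsProbabilityMeasure μ ∧ MeasurePreserving T μ μ

section

variable {X : Type*} [MetricSpace X] [CompactSpace X] [MeasurableSpace X] [BorelSpace X]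

/-- Empirical measures. -/
noncomputable def emp (T : X → X) (x : X) (N : ℕ) : Measure X :=
  (((N : ENNReal) + 1)⁻¹) • ∑ n ∈ Finset.range (N + 1), Measure.dirac (T^[n] x)

instance (T : X → X) (x : X) (N : ℕ) : IsProbabilityMeasure (emp T x N) := by
  constructor
  unfold emp
  simp only [Measure.smul_apply, Measure.coe_finsetSum, Finset.sum_apply, measure_univ,
    Finset.sum_const, Finset.card_range, smul_eq_mul, nsmul_eq_mul, mul_one]
  push_cast
  apply ENNReal.inv_mul_cancel
  · simp
  · simp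

lemma integral_emp (T : X → X) (x : X) (N : ℕ) (g : X → ℝ) (hg : Continuous g) :
    ∫ y, g y ∂(emp T x N) = ((N : ℝ) + 1)⁻¹ * ∑ n ∈ Finset.range (N + 1), g (T^[n] x) := by
  unfold emp
  rw [integral_smul_measure, integral_finsetSum_measure]
  · simp only [integral_dirac, smul_eq_mul]
    congr 1
    rw [ENNReal.toReal_inv, ENNReal.toReal_add (by simp) (by simp)]
    simp
  · intro n _
    exact integrable_dirac (by simp)

/-- Along every ultrafilter finer than `atTop`, the averages converge to the integral of an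
invariant probability measure. -/
lemma exists_invariant (T : X → X) (hT : Continuous T) (x : X) (U : Ultrafilter ℕ)
    (hU : (U : Filter ℕ) ≤ atTop) :
    ∃ μ : Measure X, IsProbabilityMeasure μ ∧ MeasurePreserving T μ μ ∧
      ∀ g : X → ℝ, Continuous g → Tendsto (fun N : ℕ => ((N : ℝ) + 1)⁻¹ *
        ∑ n ∈ Finset.range (N + 1), g (T^[n] x)) U (𝓝 (∫ y, g y ∂μ)) := by
  let E : ℕ → ProbabilityMeasure X := fun N => ⟨emp T x N, inferInstance⟩
  obtain ⟨μ, hμ⟩ : ∃ μ : ProbabilityMeasure X, Tendsto E U (𝓝 μ) := by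
    obtain ⟨μ, _, hμ⟩ := (isCompact_univ (X := ProbabilityMeasure X)).ultrafilter_le_nhds
      (U.map E) (by simp)
    exact ⟨μ, hμ⟩
  have hint : ∀ g : X → ℝ, Continuous g → Tendsto (fun N : ℕ => ((N : ℝ) + 1)⁻¹ *
        ∑ n ∈ Finset.range (N + 1), g (T^[n] x)) U (𝓝 (∫ y, g y ∂(μ : Measure X))) := by
    intro g hg
    have h1 := (ProbabilityMeasure.tendsto_iff_forall_integral_tendsto.mp hμ)
      (BoundedContinuousFunction.mkOfCompact ⟨g, hg⟩)
    refine h1.congr fun N => ?_
    exact integral_emp T x N g hg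
  refine ⟨μ, inferInstance, ⟨hT.measurable, ?_⟩, hint⟩
  have : IsProbabilityMeasure (Measure.map T (μ : Measure X)) :=
    Measure.isProbabilityMeasure_map hT.measurable.aemeasurable
  apply ext_of_forall_integral_eq_of_IsFiniteMeasure
  intro g
  rw [integral_map hT.measurable.aemeasurable g.continuous.aestronglyMeasurable]
  have h1 := hint (fun y => g (T y)) (g.continuous.comp hT)
  have h2 := hint (fun y => g y) g.continuous
  have h3 := h1.sub h2
  have h4 : Tendsto (fun N : ℕ => ((N : ℝ) + 1)⁻¹ * ∑ n ∈ Finset.range (N + 1), g (T (T^[n] x)) -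
      ((N : ℝ) + 1)⁻¹ * ∑ n ∈ Finset.range (N + 1), g (T^[n] x)) U (𝓝 0) := by
    apply Tendsto.mono_left _ hU
    have h5 : ∀ N : ℕ, ((N : ℝ) + 1)⁻¹ * ∑ n ∈ Finset.range (N + 1), g (T (T^[n] x)) -
      ((N : ℝ) + 1)⁻¹ * ∑ n ∈ Finset.range (N + 1), g (T^[n] x) =
        (g (T^[N + 1] x) - g x) * ((N : ℝ) + 1)⁻¹ := by
      intro N
      rw [← mul_sub]
      have h6 : ∑ n ∈ Finset.range (N + 1), g (T (T^[n] x)) =
          ∑ n ∈ Finset.range (N + 1), g (T^[n + 1] x) := by
        apply Finset.sum_congr rfl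
        intro n _
        rw [Function.iterate_succ_apply']
      rw [h6, ← Finset.sum_sub_distrib, Finset.sum_range_sub (fun n => g (T^[n] x))]
      simp only [Function.iterate_zero, id_eq]
      ring
    simp only [h5]
    have h7 : Tendsto (fun N : ℕ => ((N : ℝ) + 1)⁻¹) atTop (𝓝 0) := by
      have := tendsto_one_div_add_atTop_nhds_zero_nat (𝕜 := ℝ)
      simpa using this
    apply bdd_le_mul_tendsto_zero' (2 * ‖g‖) _ h7
    filter_upwards with N
    have h8 := g.norm_coe_le_norm (T^[N + 1] x)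
    have h9 := g.norm_coe_le_norm x
    have h10 := norm_sub_le (g (T^[N + 1] x)) (g x)
    rw [Real.norm_eq_abs] at h10
    linarith
  have h5 := tendsto_nhds_unique h3 h4
  linarith

/-- Unique ergodicity implies convergence of the ergodic averages at every point. -/
theorem averages_tendsto (T : X → X) (hT : Continuous T) (hue : UniquelyErgodic T) (x : X)
    (g : X → ℝ) (hg : Continuous g) :
    ∃ L : ℝ, Tendsto (fun N : ℕ => (N : ℝ)⁻¹ * ∑ n ∈ Finset.range N, g (T^[n] x)) atTop (𝓝 L) := by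
  obtain ⟨μ, ⟨hμ1, hμ2⟩, huniq⟩ := hue
  refine ⟨∫ y, g y ∂μ, ?_⟩
  rw [← tendsto_add_atTop_iff_nat 1]
  rw [tendsto_iff_ultrafilter]
  intro U hU
  obtain ⟨ν, hν1, hν2, hν3⟩ := exists_invariant T hT x U hU
  have e : ν = μ := huniq ν ⟨hν1, hν2⟩
  subst e
  refine (hν3 g hg).congr fun N => ?_
  push_cast
  rfl

end

end Pool.Agent.Work.MP_8b8979_an
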